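import Pool.Agent.Y425.OW6.Fin

/-!
Orientable five cycle double covers of all bridgeless graphs of cutwidth at most six.

The cutwidth is at most six if the vertices can be placed on a line such that at most six edges pass
over each gap. Proof. An orientable cycle double cover with five classes is the same as a flow whose
values are differences of two of five unit vectors. A vertex with at least four edges has two edges
to the same side; they are moved to a new vertex next to it, which is joined to the old one unless
the new edge would be a bridge: this keeps the graph bridgeless and does not increase the width.
Vertices with two edges are suppressed. So the graph is cubic (with arbitrary cuts of size two). For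
each initial segment X of the line the set of the states of the at most six edges leaving X that
extend to X contains, up to the permutations of the edges and the 240 symmetries of the values, one
of 425 explicit sets; a type also records some cuts inside X with at most one inner edge. Adding a
cubic vertex to a type gives a type again unless it creates a bridge; this is checked by the kernel
with explicit witnesses (13601 transitions, 402220 states).
-/

set_option autoImplicit false

namespace Pool.Agent.Results.MP_781dd6_co.CutwidthSix

open scoped Classical in
/-- Let `G` be a finite simple graph without cut edges. Assume that the vertices can be numbered
injectively by natural numbers such that for each `n` at most six edges join a vertex with number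
smaller than `n` to a vertex with number at least `n`. Then there are five families of directed
cycles such that no family traverses an edge more than once in total and every edge is traversed
exactly once in each direction. -/
theorem result :
    ∀ (V : Type) [Fintype V] (G : SimpleGraph V),
      (∀ u v : V, G.Adj u v → (G.deleteEdges {s(u, v)}).Reachable u v) →
      (∃ num : V → ℕ, Function.Injective num ∧ ∀ n,
        ({p : V × V | G.Adj p.1 p.2 ∧ num p.1 < n ∧ n ≤ num p.2} : Set (V × V)).ncard ≤ 6) →
      ∃ C : Fin 5 → List (Σ v : V, G.Walk v v), (∀ i, ∀ c ∈ C i, c.2.IsCycle) ∧
        (∀ i u v, ((C i).map (fun c =>
            (c.2.darts.filter (fun d => decide (d.toProd = (u, v)))).length)).sum +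
          ((C i).map (fun c =>
            (c.2.darts.filter (fun d => decide (d.toProd = (v, u)))).length)).sum ≤ 1) ∧
        ∀ u v, G.Adj u v → ∑ i, ((C i).map (fun c =>
          (c.2.darts.filter (fun d => decide (d.toProd = (u, v)))).length)).sum = 1 := by
  intro V _ G h hw
  exact Pool.Agent.Y425.OW6.final G h hw

end Pool.Agent.Results.MP_781dd6_co.CutwidthSix
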