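import Pool.Agent.Y530.OC.Main

/-!
# Four classes of edges whose deletion leaves graphs with oriented double covers

Jaeger asks whether the arcs of `D(G)` can be traversed exactly once by directed cycles of length at
least three. Here it is shown that the edges of `G` fall into four classes such that after the
deletion of any one of the classes this is possible, with cycles of four families each of which
traverses every edge at most once. So `G` is covered by four subgraphs with oriented cycle double
covers (equivalently, with nowhere-zero 4-flows), and every edge is missed by only one of them. The
eight-flow theorem gives this for seven classes.

Proof. By the circuit double cover theorem of the library (its form with eight even subgraphs)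
every edge `e` gets two of eight colours, every colour class being an even subgraph. Put the eight
colours on eight of the nine points of the affine plane of order three. The two colours of `e` lie
on one line, whose parallel class is the class of `e`. For a parallel class the sums modulo two of
the colour classes over its three lines are three even subgraphs, which contain an edge `e` not at
all (`e` in this class) or exactly twice. Giving them Eulerian orientations `f₀`, `f₁`, `f₂` the four
functions `(± f₀ ± f₁ ± f₂) / 2` with an even number of signs minus are circulations with values in
`{-1, 0, 1}` which traverse all these edges once in each direction.
-/

set_option autoImplicit false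

namespace Pool.Agent.Results.MP_781dd6_co.FourClasses

open Pool.Agent.TH505.OCDC
open Pool.Agent.Y530.OC

open scoped Classical in
/-- the number of times that the closed walks of the list traverse the arc `(u, v)` -/
noncomputable def times {V : Type} {G : SimpleGraph V} (C : List (Σ v : V, G.Walk v v)) (u v : V) :
    ℕ :=
  (C.map (fun c => (c.2.darts.filter (fun d => decide (d.toProd = (u, v)))).length)).sum

/-- Let `G` be a finite simple graph without cut edges. There is a map `c` from the edges to four
classes such that for every class `i` there are four families of directed cycles (of length at
least three), no family traversing an edge more than once in total, which traverse every edge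
outside of the class `i` exactly once in each direction and no edge of the class `i`. -/
theorem result :
    ∀ (V : Type) [Fintype V] (G : SimpleGraph V),
      (∀ u v : V, G.Adj u v → (G.deleteEdges {s(u, v)}).Reachable u v) →
      ∃ c : Sym2 V → Fin 4, ∀ i : Fin 4, ∃ C : Fin 4 → List (Σ v : V, G.Walk v v),
        (∀ j, ∀ p ∈ C j, p.2.IsCycle) ∧ (∀ j u v, times (C j) u v + times (C j) v u ≤ 1) ∧
        ∀ u v, G.Adj u v → ∑ j, times (C j) u v = if c s(u, v) = i then 0 else 1 := by
  intro V _ G hG
  obtain ⟨c, hc⟩ := classes G hG
  exact ⟨c, fun i => (hc i).cycles⟩

end Pool.Agent.Results.MP_781dd6_co.FourClasses
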