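import Pool.Agent.Y408.OC.Factor

/-!
Orientable five cycle double covers of cubic graphs from many disjoint short circuits.

Proof. A flow with values in `F2 x F2` which vanishes only on the circuits `Q i` is a proper
colouring with three colours off the circuits such that around each circuit the three colours occur
with the same parity. Among all choices of a set of circuits and of such a colouring off these
circuits take one with the least number of circuits; then no circuit extends. For each colour `t`
one wants signs at the circuits such that the ends of each path in the other two colours get
opposite signs. If there are no such signs, linear algebra over the field with two elements gives a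
union of such paths and a switch of the two colours on it which is twisted at an odd number of
circuits. A finite check (colour words of length at most five, switched at any even set of
positions) shows that a twisted switch of a circuit which does not extend makes it extend, so the
number of circuits can be lowered. With signs for the three colours one gets three auxiliary integer
flows which, together with a flow around the circuits, assemble to five oriented classes. For
circuits which contain all vertices the flow comes from Jaeger's theorem on the contraction.
-/

set_option autoImplicit false

namespace Pool.Agent.Results.MP_781dd6_co.ManyShortCircuits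

open scoped Classical in
/-- Let `G` be a finite cubic simple graph with pairwise disjoint cycles `Q 0, ..., Q (m - 1)` of
lengths at most five. Assume one of the following.
(a) The edges of `G` carry a flow with values in `Z2 x Z2` which is nonzero on every edge that
belongs to no `Q i`.
(b) Every vertex lies on some `Q i`, and no edge cut that contains no edge of the cycles `Q i` has
exactly one or exactly three edges.
(c) Every vertex lies on some `Q i`, and `G` is cyclically 4-edge-connected: for every edge cut with
at most three edges one of its sides induces a graph without cycles.
Then there are five families of directed cycles, the members of one family being disjoint, such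
that every edge is traversed exactly once in each direction. -/
theorem result :
    ∀ (V : Type) [Fintype V] (G : SimpleGraph V), (∀ v, (G.neighborSet v).ncard = 3) →
      ∀ (m : ℕ) (x : Fin m → V) (Q : ∀ i, G.Walk (x i) (x i)), (∀ i, (Q i).IsCycle) →
      (∀ i, (Q i).length ≤ 5) →
      (∀ i j, i ≠ j → ∀ v, v ∈ (Q i).support → v ∉ (Q j).support) →
      ((∃ φ : Sym2 V → ZMod 2 × ZMod 2,
        (∀ v, ∑ w, (if G.Adj v w then φ s(v, w) else 0) = 0) ∧
        ∀ u v, G.Adj u v → (∀ i, s(u, v) ∉ (Q i).edges) → φ s(u, v) ≠ 0) ∨
      ((∀ v, ∃ i, v ∈ (Q i).support) ∧
        ∀ X : Set V, (∀ i u v, s(u, v) ∈ (Q i).edges → (u ∈ X ↔ v ∈ X)) →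
          {p : V × V | G.Adj p.1 p.2 ∧ p.1 ∈ X ∧ p.2 ∉ X}.ncard ≠ 1 ∧
          {p : V × V | G.Adj p.1 p.2 ∧ p.1 ∈ X ∧ p.2 ∉ X}.ncard ≠ 3) ∨
      ((∀ v, ∃ i, v ∈ (Q i).support) ∧
        ∀ X : Set V, {p : V × V | G.Adj p.1 p.2 ∧ p.1 ∈ X ∧ p.2 ∉ X}.ncard < 4 →
          (G.induce X).IsAcyclic ∨ (G.induce Xᶜ).IsAcyclic)) →
      ∃ C : Fin 5 → List (Σ v : V, G.Walk v v), (∀ i, ∀ c ∈ C i, c.2.IsCycle) ∧
        (∀ i v, ((C i).map (fun c =>
          (c.2.darts.filter (fun d => decide (d.fst = v))).length)).sum ≤ 1) ∧
        ∀ u v, G.Adj u v → ∑ i, ((C i).map (fun c =>
          (c.2.darts.filter (fun d => decide (d.toProd = (u, v)))).length)).sum = 1 := by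
  intro V _ G h3 m x Q hQ h5 hd h
  exact Pool.Agent.Y408.OC.many_short_circuits G h3 m x Q hQ h5 hd h

end Pool.Agent.Results.MP_781dd6_co.ManyShortCircuits
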